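import Pool.Agent.Y862.LinStat

set_option autoImplicit false

/-!
# The Poisson law for almost prime Cunningham chains of the first kind

Fix `k ≥ 1` and `θ, ε > 0` and `x0`. For all `r ≥ r0` and all large `X`, call `m` good if each of the `k`
numbers `m, 2 (m + 1) - 1, ..., 2 ^ (k - 1) (m + 1) - 1` has at most `r` prime factors, all larger than
`X ^ (1 / r)`, and let `V` be the sieve density. Then in EVERY interval `(X, X + Y]` with `X ^ θ ≤ Y ≤ X`,
for every length `T` with `T V ≤ x0`, the number of good integers in `(n, n + T]` has the Poisson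
distribution with mean `T V`, up to `ε`.
-/

namespace Pool.Agent.Results.MP_c77da8_nt.PoissonChains

open Finset Filter

/-- each of the `k` numbers `2 ^ j (m + 1) - 1`, `j < k`, has at most `r` prime factors (with
multiplicity), all larger than `X ^ (1 / r)` -/
def Good (k r X m : ℕ) : Prop :=
  ∀ j < k, (2 ^ j * (m + 1) - 1).primeFactorsList.length ≤ r ∧
    ∀ p : ℕ, p.Prime → p ∣ 2 ^ j * (m + 1) - 1 → (X : ℝ) ^ (1 / (r : ℝ)) < (p : ℝ)

open Classical in
/-- the number of the good integers in `(n, n + T]` -/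
noncomputable def W (k r X T n : ℕ) : ℕ := ((Finset.Ioc n (n + T)).filter (fun m => Good k r X m)).card

open Classical in
/-- the sieve density: the product of `1 - ν(p) / p` over the primes `p ≤ X ^ (1 / r)`, where `ν(p)` is
the number of the `m` mod `p` for which `p` divides one of the `k` numbers `2 ^ j (m + 1) - 1` -/
noncomputable def V (k r X : ℕ) : ℝ :=
  ∏ p ∈ (Finset.range (⌊(X : ℝ) ^ (1 / (r : ℝ))⌋₊ + 1)).filter Nat.Prime,
    (1 - (((Finset.range p).filter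
      (fun m : ℕ => ∃ j < k, (p : ℤ) ∣ 2 ^ j * ((m : ℤ) + 1) - 1)).card : ℝ) / p)

theorem result (k : ℕ) (hk : 1 ≤ k) (θ : ℝ) (hθ : 0 < θ) (x0 ε : ℝ) (hε : 0 < ε) :
    ∃ r0 : ℕ, ∀ r : ℕ, r0 ≤ r → ∀ᶠ X : ℕ in atTop, ∀ Y : ℕ, (X : ℝ) ^ θ ≤ Y → Y ≤ X →
      ∀ T : ℕ, T * V k r X ≤ x0 → ∀ A : Finset ℕ,
        |(((Finset.Ioc X (X + Y)).filter (fun n => W k r X T n ∈ A)).card : ℝ) -
          Y * ∑ j ∈ A, Real.exp (-(T * V k r X)) * (T * V k r X) ^ j / j.factorial| ≤ ε * Y := by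
  haveI : Nonempty (Fin k) := ⟨⟨0, by omega⟩⟩
  have hval : ∀ (j m : ℕ), 1 ≤ m → ((2 ^ j : ℕ) : ℤ) * m + (2 ^ j - 1) =
      ((2 ^ j * (m + 1) - 1 : ℕ) : ℤ) := by
    intro j m _
    have h0 : 1 ≤ 2 ^ j * (m + 1) := Nat.mul_pos (by positivity) (by omega)
    push_cast [Nat.cast_sub h0]
    ring
  have hval' : ∀ (j m : ℕ), ((2 ^ j : ℕ) : ℤ) * m + (2 ^ j - 1) = 2 ^ j * ((m : ℤ) + 1) - 1 := by
    intro j m
    push_cast
    ring
  exact Pool.Agent.Y862.LS.poisson_lin (ι := Fin k) (fun i => 2 ^ (i : ℕ)) (fun i => 2 ^ (i : ℕ) - 1)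
    (fun _ => by positivity)
    (fun i => ⟨1, -1, by push_cast; ring⟩)
    (fun i j h _ => Fin.ext (Nat.pow_right_injective le_rfl h))
    (by
      intro p hp
      refine ⟨p - 1, fun i h => ?_⟩
      have h1 : (p : ℤ) ∣ 1 := by
        have e : ((2 ^ (i : ℕ) : ℕ) : ℤ) * ((p - 1 : ℕ) : ℤ) + (2 ^ (i : ℕ) - 1) =
            2 ^ (i : ℕ) * (p : ℤ) - 1 := by
          push_cast [Nat.cast_sub hp.one_lt.le]
          ring
        have h' : (p : ℤ) ∣ ((2 ^ (i : ℕ) : ℕ) : ℤ) * ((p - 1 : ℕ) : ℤ) + (2 ^ (i : ℕ) - 1) := h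
        rw [e] at h'
        have h2 := dvd_sub (Dvd.intro_left (2 ^ (i : ℕ) : ℤ) rfl : (p : ℤ) ∣ 2 ^ (i : ℕ) * (p : ℤ)) h'
        simpa using h2
      exact hp.one_lt.ne' (Nat.dvd_one.1 (by exact_mod_cast h1)))
    (by
      rintro i j t ht ⟨h1, h2⟩
      have h3 : i = j := Fin.ext (Nat.pow_right_injective le_rfl h1)
      subst h3
      have h4 : (0 : ℤ) < ((2 ^ (i : ℕ) : ℕ) : ℤ) * t := by positivity
      omega)
    (Good k)
    (by
      intro r X m _ hm
      constructor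
      · intro h i
        obtain ⟨h1, h2⟩ := h i i.2
        refine ⟨?_, fun p hp hd => h2 p hp ?_⟩
        · show (((2 ^ (i : ℕ) : ℕ) : ℤ) * m + (2 ^ (i : ℕ) - 1)).natAbs.primeFactorsList.length ≤ r
          rw [hval _ m hm, Int.natAbs_natCast]
          exact h1
        · have hd' : (p : ℤ) ∣ ((2 ^ (i : ℕ) : ℕ) : ℤ) * m + (2 ^ (i : ℕ) - 1) := hd
          rw [hval _ m hm] at hd'
          exact Int.natCast_dvd_natCast.1 hd'
      · intro h j hj
        obtain ⟨h1, h2⟩ := h ⟨j, hj⟩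
        have h1' : (((2 ^ j : ℕ) : ℤ) * m + (2 ^ j - 1)).natAbs.primeFactorsList.length ≤ r := h1
        rw [hval _ m hm, Int.natAbs_natCast] at h1'
        refine ⟨h1', fun p hp hd => h2 p hp ?_⟩
        show (p : ℤ) ∣ ((2 ^ j : ℕ) : ℤ) * m + (2 ^ j - 1)
        rw [hval _ m hm]
        exact Int.natCast_dvd_natCast.2 hd)
    (V k)
    (by
      intro r X
      unfold V
      apply Finset.prod_congr rfl
      intro p _
      have : (Finset.range p).filter (fun m : ℕ => ∃ j < k, (p : ℤ) ∣ 2 ^ j * ((m : ℤ) + 1) - 1) =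
          (Finset.range p).filter (fun m : ℕ => ∃ i : Fin k,
            (p : ℤ) ∣ ((2 ^ (i : ℕ) : ℕ) : ℤ) * m + (2 ^ (i : ℕ) - 1)) := by
        apply Finset.filter_congr
        intro m _
        constructor
        · rintro ⟨j, hj, h⟩
          exact ⟨⟨j, hj⟩, by rw [hval']; exact h⟩
        · rintro ⟨i, h⟩
          exact ⟨i, i.2, by rw [hval'] at h; exact h⟩
      rw [this]
      exact congrArg (fun x : ℝ => 1 - x / p) (Pool.Agent.Y862.LS.card_inst p _ _ _))
    θ hθ x0 ε hε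

end Pool.Agent.Results.MP_c77da8_nt.PoissonChains
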